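import Mathlib
import Pool.Agent.Helper80.NSRSign

namespace Pool.Agent.Helper82.NSR

open MvPolynomial Pool.Agent.Helper80.NSR

variable {F : Type*} [Field F] {n : ℕ} {ι : Type*} [DecidableEq ι]

/-- the list of steps `a i * mono J (E i) * (x_j + x̄_j - 1)`, `i ∈ t` -/
theorem steps_list (j : Fin n) (J : Finset (Fin n)) (t : Finset ι) (E : ι → Finset (Fin n × Bool)) (a : ι → F)
    (P : F → Prop) (hP : ∀ i ∈ t, P (a i)) :
    ∃ L : List (Step F n), (L.map Step.val).sum =
        ∑ i ∈ t, C (a i) * mono F J (E i) * (X (j, true) + X (j, false) - 1) ∧
      L.length ≤ t.card ∧ ∀ st ∈ L, P st.c := by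
  have h := collect (F := F) (n := n) t
    (fun i => C (a i) * mono F J (E i) * (X (j, true) + X (j, false) - 1)) 1 P (by
      intro i hi
      refine ⟨[⟨a i, expo J (E i), j⟩], ?_, by simp, ?_⟩
      · simp only [List.map_cons, List.map_nil, List.sum_cons, List.sum_nil, add_zero, Step.val]
        rw [mono_eq, C_mul_monomial, mul_one]
      · intro st hst
        rw [List.mem_singleton] at hst
        subst hst
        exact hP i hi)
  simpa using h

theorem mono_single (j : Fin n) (E : Finset (Fin n × Bool)) (hE : Consistent E) :
    mono F {j} E = if (j, true) ∈ E then X (j, true) else if (j, false) ∈ E then X (j, false) else 1 := by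
  unfold mono
  rw [filter_single j E hE]
  split_ifs <;> simp

theorem evJ_single (j : Fin n) (E : Finset (Fin n × Bool)) (hE : Consistent E) (x : Fin n → Bool) :
    evJ F {j} E x = if (j, true) ∈ E then (if x j = true then 1 else 0)
      else if (j, false) ∈ E then (if x j = false then 1 else 0) else 1 := by
  unfold evJ
  rw [filter_single j E hE]
  split_ifs <;> simp_all [bv]

theorem card_ineq (a b c : ℕ) (h1 : a ≤ b) (h2 : a ≤ c) :
    a + (a + b) ^ 2 + (a + c) ^ 2 ≤ (a + b + c) ^ 2 := by
  have h3 : a * a ≤ b * c := Nat.mul_le_mul h1 h2
  have h4 : a ≤ a * a := by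
    rcases Nat.eq_zero_or_pos a with h | h
    · simp [h]
    · exact Nat.le_mul_of_pos_left a h
  nlinarith

/-- **The key lemma.** A combination of `s.card` conjunctions that vanishes on the cube is a sum of at
most `s.card ^ 2` terms `± c_i * monomial * (x_j + x̄_j - 1)`. -/
theorem core2 (P : F → Prop) (hneg : ∀ a, P a → P (-a)) (J : Finset (Fin n)) :
    ∀ (s : Finset ι) (E : ι → Finset (Fin n × Bool)), (∀ i ∈ s, Consistent (E i)) →
    ∀ (c : ι → F), (∀ i ∈ s, P (c i)) → (∀ x, ∑ i ∈ s, c i * evJ F J (E i) x = 0) →
    ∃ L : List (Step F n), (L.map Step.val).sum = ∑ i ∈ s, C (c i) * mono F J (E i) ∧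
      L.length ≤ s.card ^ 2 ∧ ∀ st ∈ L, P st.c := by
  classical
  induction J using Finset.induction_on with
  | empty =>
    intro s E hE c hc h0
    refine ⟨[], ?_, by simp, by simp⟩
    have h := h0 (fun _ => true)
    simp only [evJ_empty, mul_one] at h
    simp only [mono_empty, mul_one, List.map_nil, List.sum_nil]
    rw [← map_sum, h, map_zero]
  | insert j J hj ih =>
    intro s E hE c hc h0
    -- the three parts
    set A := s.filter (fun i => (j, true) ∉ E i ∧ (j, false) ∉ E i) with hA
    set B := s.filter (fun i => (j, true) ∈ E i) with hB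
    set D := s.filter (fun i => (j, true) ∉ E i ∧ (j, false) ∈ E i) with hD
    have hAs : A ⊆ s := Finset.filter_subset _ _
    have hBs : B ⊆ s := Finset.filter_subset _ _
    have hDs : D ⊆ s := Finset.filter_subset _ _
    have dAB : Disjoint A B := by
      rw [Finset.disjoint_left]; intro i h1 h2
      rw [hA, Finset.mem_filter] at h1; rw [hB, Finset.mem_filter] at h2
      exact h1.2.1 h2.2
    have dAD : Disjoint A D := by
      rw [Finset.disjoint_left]; intro i h1 h2
      rw [hA, Finset.mem_filter] at h1; rw [hD, Finset.mem_filter] at h2
      exact h1.2.2 h2.2.2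
    have dBD : Disjoint B D := by
      rw [Finset.disjoint_left]; intro i h1 h2
      rw [hB, Finset.mem_filter] at h1; rw [hD, Finset.mem_filter] at h2
      exact h2.2.1 h1.2
    have hunion : s = A ∪ B ∪ D := by
      ext i
      simp only [hA, hB, hD, Finset.mem_union, Finset.mem_filter]
      constructor
      · intro h
        by_cases h1 : (j, true) ∈ E i
        · exact Or.inl (Or.inr ⟨h, h1⟩)
        · by_cases h2 : (j, false) ∈ E i
          · exact Or.inr ⟨h, h1, h2⟩
          · exact Or.inl (Or.inl ⟨h, h1, h2⟩)
      · rintro ((h | h) | h) <;> exact h.1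
    have dABD : Disjoint (A ∪ B) D := Finset.disjoint_union_left.mpr ⟨dAD, dBD⟩
    have hsum : ∀ {M : Type _} [AddCommMonoid M] (f : ι → M),
        ∑ i ∈ s, f i = ∑ i ∈ A, f i + ∑ i ∈ B, f i + ∑ i ∈ D, f i := by
      intro M _ f
      rw [hunion, Finset.sum_union dABD, Finset.sum_union dAB]
    have hcard : s.card = A.card + B.card + D.card := by
      rw [hunion, Finset.card_union_of_disjoint dABD, Finset.card_union_of_disjoint dAB]
    have hins : insert j J \ {j} = J := by
      ext i
      simp only [Finset.mem_sdiff, Finset.mem_insert, Finset.mem_singleton]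
      constructor
      · rintro ⟨h1 | h1, h2⟩
        · exact absurd h1 h2
        · exact h1
      · intro h
        exact ⟨Or.inr h, fun h' => hj (h' ▸ h)⟩
    have hsub : ({j} : Finset (Fin n)) ⊆ insert j J := by simp
    -- values of the monomials
    have mA : ∀ i ∈ A, mono F (insert j J) (E i) = mono F J (E i) := by
      intro i hi
      have h1 := Finset.mem_filter.mp hi
      rw [mono_split (insert j J) {j} hsub, hins, mono_single j _ (hE i h1.1), if_neg h1.2.1, if_neg h1.2.2, one_mul]
    have mB : ∀ i ∈ B, mono F (insert j J) (E i) = X (j, true) * mono F J (E i) := by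
      intro i hi
      have h1 := Finset.mem_filter.mp hi
      rw [mono_split (insert j J) {j} hsub, hins, mono_single j _ (hE i h1.1), if_pos h1.2]
    have mD : ∀ i ∈ D, mono F (insert j J) (E i) = X (j, false) * mono F J (E i) := by
      intro i hi
      have h1 := Finset.mem_filter.mp hi
      rw [mono_split (insert j J) {j} hsub, hins, mono_single j _ (hE i h1.1), if_neg h1.2.1, if_pos h1.2.2]
    have vA : ∀ i ∈ A, ∀ x, evJ F (insert j J) (E i) x = evJ F J (E i) x := by
      intro i hi x
      have h1 := Finset.mem_filter.mp hi
      rw [evJ_split (insert j J) {j} hsub, hins, evJ_single j _ (hE i h1.1), if_neg h1.2.1, if_neg h1.2.2, one_mul]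
    have vB : ∀ i ∈ B, ∀ x, evJ F (insert j J) (E i) x = (if x j = true then 1 else 0) * evJ F J (E i) x := by
      intro i hi x
      have h1 := Finset.mem_filter.mp hi
      rw [evJ_split (insert j J) {j} hsub, hins, evJ_single j _ (hE i h1.1), if_pos h1.2]
    have vD : ∀ i ∈ D, ∀ x, evJ F (insert j J) (E i) x = (if x j = false then 1 else 0) * evJ F J (E i) x := by
      intro i hi x
      have h1 := Finset.mem_filter.mp hi
      rw [evJ_split (insert j J) {j} hsub, hins, evJ_single j _ (hE i h1.1), if_neg h1.2.1, if_pos h1.2.2]
    -- `evJ J` does not see `x_j`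
    have hupd : ∀ i (x : Fin n → Bool) (b : Bool), evJ F J (E i) (Function.update x j b) = evJ F J (E i) x := by
      intro i x b
      apply evJ_congr
      intro k hk
      have : k ≠ j := fun h => hj (h ▸ hk)
      simp [this]
    -- the two restricted identities
    have z1 : ∀ x, ∑ i ∈ A, c i * evJ F J (E i) x + ∑ i ∈ B, c i * evJ F J (E i) x = 0 := by
      intro x
      have h := h0 (Function.update x j true)
      rw [hsum] at h
      rw [← h]
      have e3 : ∑ i ∈ D, c i * evJ F (insert j J) (E i) (Function.update x j true) = 0 := by
        apply Finset.sum_eq_zero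
        intro i hi
        rw [vD i hi]; simp
      rw [e3, add_zero]
      congr 1
      · apply Finset.sum_congr rfl
        intro i hi
        rw [vA i hi, hupd]
      · apply Finset.sum_congr rfl
        intro i hi
        rw [vB i hi, hupd]; simp
    have z2 : ∀ x, ∑ i ∈ A, c i * evJ F J (E i) x + ∑ i ∈ D, c i * evJ F J (E i) x = 0 := by
      intro x
      have h := h0 (Function.update x j false)
      rw [hsum] at h
      rw [← h]
      have e3 : ∑ i ∈ B, c i * evJ F (insert j J) (E i) (Function.update x j false) = 0 := by
        apply Finset.sum_eq_zero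
        intro i hi
        rw [vB i hi]; simp
      rw [e3, add_zero]
      congr 1
      · apply Finset.sum_congr rfl
        intro i hi
        rw [vA i hi, hupd]
      · apply Finset.sum_congr rfl
        intro i hi
        rw [vD i hi, hupd]; simp
    -- abbreviations for the three polynomials
    set pA : MvPolynomial (Fin n × Bool) F := ∑ i ∈ A, C (c i) * mono F J (E i) with hpA
    set pB : MvPolynomial (Fin n × Bool) F := ∑ i ∈ B, C (c i) * mono F J (E i) with hpB
    set pD : MvPolynomial (Fin n × Bool) F := ∑ i ∈ D, C (c i) * mono F J (E i) with hpD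
    have htarget : ∑ i ∈ s, C (c i) * mono F (insert j J) (E i) = pA + X (j, true) * pB + X (j, false) * pD := by
      rw [hsum, hpA, hpB, hpD, Finset.mul_sum, Finset.mul_sum]
      congr 1
      · congr 1
        · apply Finset.sum_congr rfl
          intro i hi
          rw [mA i hi]
        · apply Finset.sum_congr rfl
          intro i hi
          rw [mB i hi]; ring
      · apply Finset.sum_congr rfl
        intro i hi
        rw [mD i hi]; ring
    -- recursive calls
    have callAB : ∃ L : List (Step F n), (L.map Step.val).sum = pA + pB ∧
        L.length ≤ (A.card + B.card) ^ 2 ∧ ∀ st ∈ L, P st.c := by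
      obtain ⟨L, h1, h2, h3⟩ := ih (A ∪ B) E (fun i hi => hE i (Finset.union_subset hAs hBs hi)) c
        (fun i hi => hc i (Finset.union_subset hAs hBs hi)) (by
          intro x; rw [Finset.sum_union dAB]; exact z1 x)
      refine ⟨L, ?_, ?_, h3⟩
      · rw [h1, Finset.sum_union dAB]
      · rwa [Finset.card_union_of_disjoint dAB] at h2
    have callAD : ∃ L : List (Step F n), (L.map Step.val).sum = pA + pD ∧
        L.length ≤ (A.card + D.card) ^ 2 ∧ ∀ st ∈ L, P st.c := by
      obtain ⟨L, h1, h2, h3⟩ := ih (A ∪ D) E (fun i hi => hE i (Finset.union_subset hAs hDs hi)) c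
        (fun i hi => hc i (Finset.union_subset hAs hDs hi)) (by
          intro x; rw [Finset.sum_union dAD]; exact z2 x)
      refine ⟨L, ?_, ?_, h3⟩
      · rw [h1, Finset.sum_union dAD]
      · rwa [Finset.card_union_of_disjoint dAD] at h2
    have callBD : ∃ L : List (Step F n), (L.map Step.val).sum = pB - pD ∧
        L.length ≤ (B.card + D.card) ^ 2 ∧ ∀ st ∈ L, P st.c := by
      have hif1 : ∀ i ∈ B, (if i ∈ B then c i else -c i) = c i := fun i hi => if_pos hi
      have hif2 : ∀ i ∈ D, (if i ∈ B then c i else -c i) = -c i :=
        fun i hi => if_neg (fun h => (Finset.disjoint_left.mp dBD) h hi)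
      obtain ⟨L, h1, h2, h3⟩ := ih (B ∪ D) E (fun i hi => hE i (Finset.union_subset hBs hDs hi))
        (fun i => if i ∈ B then c i else -c i)
        (fun i hi => by
          have := hc i (Finset.union_subset hBs hDs hi)
          split_ifs
          · exact this
          · exact hneg _ this) (by
          intro x
          rw [Finset.sum_union dBD]
          have e1 : ∑ i ∈ B, (if i ∈ B then c i else -c i) * evJ F J (E i) x = ∑ i ∈ B, c i * evJ F J (E i) x :=
            Finset.sum_congr rfl (fun i hi => by rw [hif1 i hi])
          have e2 : ∑ i ∈ D, (if i ∈ B then c i else -c i) * evJ F J (E i) x = - ∑ i ∈ D, c i * evJ F J (E i) x := by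
            rw [← Finset.sum_neg_distrib]
            exact Finset.sum_congr rfl (fun i hi => by rw [hif2 i hi]; ring)
          rw [e1, e2]
          linear_combination z1 x - z2 x)
      refine ⟨L, ?_, ?_, h3⟩
      · rw [h1, Finset.sum_union dBD, sub_eq_add_neg, hpB, hpD, ← Finset.sum_neg_distrib]
        congr 1
        · exact Finset.sum_congr rfl (fun i hi => by rw [hif1 i hi])
        · exact Finset.sum_congr rfl (fun i hi => by rw [hif2 i hi, C_neg]; ring)
      · rwa [Finset.card_union_of_disjoint dBD] at h2
    -- combining a list of local steps, an unshifted list and a shifted one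
    have hX : ∀ b : Bool, (monomial (Finsupp.single (j, b) 1) (1 : F)) = X (j, b) := fun b => rfl
    have hshift : ∀ (b : Bool) (L : List (Step F n)),
        ((L.map (Step.shift (Finsupp.single (j, b) 1))).map Step.val).sum = X (j, b) * (L.map Step.val).sum := by
      intro b L
      rw [shift_sum, hX]
    have hshiftP : ∀ (ν : (Fin n × Bool) →₀ ℕ) (L : List (Step F n)), (∀ st ∈ L, P st.c) →
        ∀ st ∈ L.map (Step.shift ν), P st.c := by
      intro ν L h st hst
      rw [List.mem_map] at hst
      obtain ⟨st', hst', rfl⟩ := hst
      exact h st' hst'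
    rcases le_total A.card B.card with hAB | hAB
    · rcases le_total A.card D.card with hAD | hAD
      · -- `A` smallest
        obtain ⟨L1, a1, a2, a3⟩ := callAB
        obtain ⟨L2, b1, b2, b3⟩ := callAD
        obtain ⟨L0, c1, c2, c3⟩ := steps_list j J A E (fun i => -c i) P (fun i hi => hneg _ (hc i (hAs hi)))
        refine ⟨L0 ++ (L1.map (Step.shift (Finsupp.single (j, true) 1)) ++
          L2.map (Step.shift (Finsupp.single (j, false) 1))), ?_, ?_, ?_⟩
        · rw [List.map_append, List.sum_append, List.map_append, List.sum_append, hshift, hshift, a1, b1, c1, htarget,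
            ← Finset.sum_mul]
          have : ∑ i ∈ A, C (-c i) * mono F J (E i) = - pA := by
            rw [hpA, ← Finset.sum_neg_distrib]
            exact Finset.sum_congr rfl (fun i _ => by rw [C_neg]; ring)
          rw [this]; ring
        · rw [List.length_append, List.length_append, List.length_map, List.length_map, hcard]
          calc _ ≤ A.card + ((A.card + B.card) ^ 2 + (A.card + D.card) ^ 2) := Nat.add_le_add c2 (Nat.add_le_add a2 b2)
            _ ≤ _ := by rw [← add_assoc]; exact card_ineq _ _ _ hAB hAD
        · intro st hst
          rcases List.mem_append.mp hst with h | h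
          · exact c3 st h
          · rcases List.mem_append.mp h with h | h
            · exact hshiftP _ _ a3 st h
            · exact hshiftP _ _ b3 st h
      · -- `D` smallest
        obtain ⟨L1, a1, a2, a3⟩ := callAD
        obtain ⟨L2, b1, b2, b3⟩ := callBD
        obtain ⟨L0, c1, c2, c3⟩ := steps_list j J D E c P (fun i hi => hc i (hDs hi))
        refine ⟨L0 ++ (L1 ++ L2.map (Step.shift (Finsupp.single (j, true) 1))), ?_, ?_, ?_⟩
        · rw [List.map_append, List.sum_append, List.map_append, List.sum_append, hshift, a1, b1, c1, htarget,
            ← Finset.sum_mul, ← hpD]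
          ring
        · rw [List.length_append, List.length_append, List.length_map, hcard]
          calc _ ≤ D.card + ((A.card + D.card) ^ 2 + (B.card + D.card) ^ 2) := Nat.add_le_add c2 (Nat.add_le_add a2 b2)
            _ = D.card + (D.card + A.card) ^ 2 + (D.card + B.card) ^ 2 := by ring
            _ ≤ (D.card + A.card + B.card) ^ 2 := card_ineq _ _ _ hAD (hAD.trans hAB)
            _ = _ := by ring
        · intro st hst
          rcases List.mem_append.mp hst with h | h
          · exact c3 st h
          · rcases List.mem_append.mp h with h | h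
            · exact a3 st h
            · exact hshiftP _ _ b3 st h
    · rcases le_total B.card D.card with hBD | hBD
      · -- `B` smallest
        obtain ⟨L1, a1, a2, a3⟩ := callAB
        obtain ⟨L2, b1, b2, b3⟩ := callBD
        obtain ⟨L0, c1, c2, c3⟩ := steps_list j J B E c P (fun i hi => hc i (hBs hi))
        -- negate the list `L2`
        refine ⟨L0 ++ (L1 ++ (L2.map (fun st => ⟨-st.c, st.μ, st.j⟩)).map (Step.shift (Finsupp.single (j, false) 1))),
          ?_, ?_, ?_⟩
        · have hn : ((L2.map (fun st => (⟨-st.c, st.μ, st.j⟩ : Step F n))).map Step.val).sum = -(pB - pD) := by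
            rw [← b1]
            clear b1 b2 b3
            induction L2 with
            | nil => simp
            | cons a L ih2 =>
              simp only [List.map_cons, List.sum_cons] at ih2 ⊢
              rw [ih2, neg_add]
              congr 1
              unfold Step.val
              simp only [map_neg, neg_mul]
          rw [List.map_append, List.sum_append, List.map_append, List.sum_append, hshift, a1, hn, c1, htarget,
            ← Finset.sum_mul, ← hpB]
          ring
        · rw [List.length_append, List.length_append, List.length_map, List.length_map, hcard]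
          calc _ ≤ B.card + ((A.card + B.card) ^ 2 + (B.card + D.card) ^ 2) := Nat.add_le_add c2 (Nat.add_le_add a2 b2)
            _ = B.card + (B.card + A.card) ^ 2 + (B.card + D.card) ^ 2 := by ring
            _ ≤ (B.card + A.card + D.card) ^ 2 := card_ineq _ _ _ hAB hBD
            _ = _ := by ring
        · intro st hst
          rcases List.mem_append.mp hst with h | h
          · exact c3 st h
          · rcases List.mem_append.mp h with h | h
            · exact a3 st h
            · refine hshiftP _ _ ?_ st h
              intro st' hst'
              rw [List.mem_map] at hst'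
              obtain ⟨st'', hst'', rfl⟩ := hst'
              exact hneg _ (b3 st'' hst'')
      · -- `D` smallest
        obtain ⟨L1, a1, a2, a3⟩ := callAD
        obtain ⟨L2, b1, b2, b3⟩ := callBD
        obtain ⟨L0, c1, c2, c3⟩ := steps_list j J D E c P (fun i hi => hc i (hDs hi))
        refine ⟨L0 ++ (L1 ++ L2.map (Step.shift (Finsupp.single (j, true) 1))), ?_, ?_, ?_⟩
        · rw [List.map_append, List.sum_append, List.map_append, List.sum_append, hshift, a1, b1, c1, htarget,
            ← Finset.sum_mul, ← hpD]
          ring
        · rw [List.length_append, List.length_append, List.length_map, hcard]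
          calc _ ≤ D.card + ((A.card + D.card) ^ 2 + (B.card + D.card) ^ 2) := Nat.add_le_add c2 (Nat.add_le_add a2 b2)
            _ = D.card + (D.card + A.card) ^ 2 + (D.card + B.card) ^ 2 := by ring
            _ ≤ (D.card + A.card + B.card) ^ 2 := card_ineq _ _ _ (hBD.trans hAB) hBD
            _ = _ := by ring
        · intro st hst
          rcases List.mem_append.mp hst with h | h
          · exact c3 st h
          · rcases List.mem_append.mp h with h | h
            · exact a3 st h
            · exact hshiftP _ _ b3 st h

end Pool.Agent.Helper82.NSR
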