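import Mathlib
import Pool.Agent.Helper82.NSR.Core

namespace Pool.Agent.Helper82.NSR

open MvPolynomial Pool.Agent.Helper80.NSR

variable {F : Type*} [Field F] {n : ℕ}

/-- from a Boolean identity between `c_i * (∏_{D_i} X) * X^{μ_i}` to few steps -/
theorem assembly {ι : Type*} [DecidableEq ι] (P : F → Prop) (hneg : ∀ a, P a → P (-a)) (s : Finset ι)
    (D : ι → Finset (Fin n × Bool)) (μ : ι → (Fin n × Bool) →₀ ℕ) (c : ι → F)
    (hc : ∀ i ∈ s, P (c i))
    (h0 : ∀ x, ∑ i ∈ s, eval (bv F x) ((∏ v ∈ D i, X v) * monomial (μ i) (c i)) = 0) :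
    ∃ L : List (Step F n),
      (L.map Step.val).sum = ∑ i ∈ s.filter (fun i => Consistent (D i ∪ (μ i).support)),
        (∏ v ∈ D i, X v) * monomial (resid (D i) (μ i)) (c i) ∧
      L.length ≤ s.card ^ 2 ∧ ∀ st ∈ L, P st.c := by
  classical
  set s' := s.filter (fun i => Consistent (D i ∪ (μ i).support)) with hs'
  have hcard : s'.card ≤ s.card := Finset.card_filter_le _ _
  obtain ⟨L, h1, h2, h3⟩ := core2 P hneg Finset.univ s'
    (fun i => D i ∪ (μ i).support) (fun i hi => (Finset.mem_filter.mp hi).2) c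
    (fun i hi => hc i (Finset.mem_filter.mp hi).1) (by
      intro x
      rw [← h0 x, hs', Finset.sum_filter]
      apply Finset.sum_congr rfl
      intro i _
      rw [map_mul, eval_monomial_bv, map_prod]
      simp only [eval_X]
      have e : (∏ v ∈ D i, bv F x v) * (c i * ∏ v ∈ (μ i).support, bv F x v)
          = c i * ∏ v ∈ D i ∪ (μ i).support, bv F x v := by
        rw [← prod_union_idem]; ring
      rw [e]
      split_ifs with hcon
      · rw [evJ_univ]
      · rw [evJ_not_consistent _ _ hcon, mul_zero])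
  refine ⟨L, ?_, h2.trans (Nat.pow_le_pow_left hcard _), h3⟩
  rw [h1]
  apply Finset.sum_congr rfl
  intro i _
  rw [prod_mul_resid]

/-- General statement: an identity on Boolean points becomes a formal one, up to cleaning. -/
theorem assemblyB {β : Type*} [DecidableEq β] (P : F → Prop) (hneg : ∀ a, P a → P (-a)) (t : Finset β)
    (D : β → Finset (Fin n × Bool)) (p : β → MvPolynomial (Fin n × Bool) F) (K : ℕ)
    (hK : ∑ b ∈ t, (p b).support.card ≤ K)
    (hc : ∀ u ∈ t, ∀ m ∈ (p u).support, P ((p u).coeff m))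
    (h0 : ∀ x, ∑ u ∈ t, eval (bv F x) ((∏ v ∈ D u, X v) * p u) = 0) :
    ∃ L : List (Step F n),
      (L.map Step.val).sum = ∑ u ∈ t, (∏ v ∈ D u, X v) * clean (D u) (p u) ∧
      L.length ≤ K ^ 2 ∧ ∀ st ∈ L, P st.c := by
  classical
  let s : Finset (Σ _ : β, (Fin n × Bool) →₀ ℕ) := t.sigma (fun u => (p u).support)
  have hs : s.card ≤ K := by
    simp only [s, Finset.card_sigma]
    exact hK
  obtain ⟨L, h1, h2, h3⟩ := assembly P hneg s (fun i => D i.1) (fun i => i.2) (fun i => (p i.1).coeff i.2)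
    (by
      intro i hi
      rw [Finset.mem_sigma] at hi
      exact hc _ hi.1 _ hi.2)
    (by
      intro x
      rw [Finset.sum_sigma, ← h0 x]
      apply Finset.sum_congr rfl
      intro u _
      rw [← map_sum]
      simp only
      rw [← Finset.mul_sum]
      congr 2
      exact (as_sum (p u)).symm)
  refine ⟨L, ?_, h2.trans (Nat.pow_le_pow_left hs _), h3⟩
  rw [h1, Finset.sum_filter, Finset.sum_sigma]
  apply Finset.sum_congr rfl
  intro u _
  unfold clean
  rw [Finset.mul_sum, Finset.sum_filter]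

/-- rational version with sizes -/
theorem assemblyQ {β : Type*} [DecidableEq β] (t : Finset β)
    (D : β → Finset (Fin n × Bool)) (p : β → MvPolynomial (Fin n × Bool) ℚ) (K b : ℕ)
    (hK : ∑ u ∈ t, (p u).support.card ≤ K)
    (hb : ∀ u ∈ t, ∀ m ∈ (p u).support, bits ((p u).coeff m) ≤ b)
    (h0 : ∀ x, ∑ u ∈ t, eval (bv ℚ x) ((∏ v ∈ D u, X v) * p u) = 0) :
    ∃ s : Fin n → MvPolynomial (Fin n × Bool) ℚ,
      ∑ j, (X (j, true) + X (j, false) - 1) * s j = ∑ u ∈ t, (∏ v ∈ D u, X v) * clean (D u) (p u) ∧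
      ∑ j, polySize (s j) ≤ K ^ 2 * (2 * b + 5) := by
  classical
  obtain ⟨L, h1, h2, h3⟩ := assemblyB (fun a => ht a ≤ 2 ^ b) (fun a h => by rw [ht_neg]; exact h) t D p K hK
    (by
      intro u hu m hm
      show ht _ ≤ 2 ^ b
      exact (ht_lt_bits _).trans (Nat.pow_le_pow_right (by norm_num) (hb u hu m hm))) h0
  refine ⟨mult L, ?_, ?_⟩
  · rw [sum_mult, h1]
  · refine (sum_polySize_mult_le L b h3).trans ?_
    exact Nat.mul_le_mul_right _ h2

end Pool.Agent.Helper82.NSR
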